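import Pool.Agent.Y528.KL.Defs
import Pool.Agent.H370R3.SphereTools

/-!
# The finite Kneser-Lovász theorem from the Borsuk-Ulam theorem
-/

set_option autoImplicit false

namespace Pool.Agent.Y935.KLKN

open Finset Pool.Agent.H370R3.SphereTools Pool.Agent.Y528.KL

/-- values of the polynomial with coefficients `x` -/
noncomputable def w {m : ℕ} (i : ℕ) (x : E m) : ℝ := ∑ j : Fin m, x j * (i : ℝ) ^ (j : ℕ)

theorem w_neg {m : ℕ} (i : ℕ) (x : E m) : w i (-x) = - w i x := by
  simp [w]

theorem w_cont {m : ℕ} (i : ℕ) : Continuous fun x : E m => w i x := by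
  unfold w
  fun_prop

/-- positive iff some member of `F` lies in the positive part -/
noncomputable def gg {m : ℕ} (F : Finset (Finset ℕ)) (x : E m) : ℝ :=
  ∑ S ∈ F, ∏ i ∈ S, max (w i x) 0

theorem gg_cont {m : ℕ} (F : Finset (Finset ℕ)) : Continuous fun x : E m => gg F x := by
  unfold gg
  refine continuous_finsetSum _ fun S _ => continuous_finsetProd _ fun i _ => ?_
  exact (w_cont i).max continuous_const

theorem prod_nonneg' {m : ℕ} (S : Finset ℕ) (x : E m) : 0 ≤ ∏ i ∈ S, max (w i x) 0 :=
  Finset.prod_nonneg fun _ _ => le_max_right _ _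

theorem gg_nonneg {m : ℕ} (F : Finset (Finset ℕ)) (x : E m) : 0 ≤ gg F x :=
  Finset.sum_nonneg fun S _ => prod_nonneg' S x

theorem gg_pos {m : ℕ} {F : Finset (Finset ℕ)} {x : E m} {S : Finset ℕ} (hS : S ∈ F)
    (h : ∀ i ∈ S, 0 < w i x) : 0 < gg F x := by
  refine Finset.sum_pos' (fun S _ => prod_nonneg' S x) ⟨S, hS, ?_⟩
  refine Finset.prod_pos fun i hi => ?_
  rw [max_eq_left (h i hi).le]
  exact h i hi

theorem exists_of_gg_ne {m : ℕ} {F : Finset (Finset ℕ)} {x : E m} (h : gg F x ≠ 0) :
    ∃ S ∈ F, ∀ i ∈ S, 0 < w i x := by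
  obtain ⟨S, hS, hne⟩ := Finset.exists_ne_zero_of_sum_ne_zero h
  refine ⟨S, hS, fun i hi => ?_⟩
  have h1 := (Finset.prod_ne_zero_iff.mp hne) i hi
  by_contra hle
  exact h1 (max_eq_right (not_lt.mp hle))

open Polynomial in
theorem zeros_card {m : ℕ} (x : E (m + 1)) (hx : x ≠ 0) (n : ℕ) :
    ((range n).filter fun i => w i x = 0).card ≤ m := by
  classical
  let P : ℝ[X] := ∑ j : Fin (m + 1), C (x j) * X ^ (j : ℕ)
  have hdeg : P.natDegree ≤ m := by
    refine natDegree_sum_le_of_forall_le _ _ fun j _ => ?_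
    refine (natDegree_C_mul_X_pow_le _ _).trans ?_
    have := j.2
    omega
  have hne : P ≠ 0 := by
    obtain ⟨j, hj⟩ : ∃ j, x j ≠ 0 := by
      by_contra h
      push Not at h
      exact hx (by ext j; exact h j)
    intro h0
    apply hj
    have h1 : P.coeff (j : ℕ) = x j := by
      simp only [P, finsetSum_coeff, coeff_C_mul, coeff_X_pow]
      rw [Finset.sum_eq_single j]
      · simp
      · intro b _ hb
        have : (j : ℕ) ≠ (b : ℕ) := fun h => hb (Fin.ext h.symm)
        simp [this]
      · simp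
    rw [← h1, h0, coeff_zero]
  have heval : ∀ i : ℕ, P.eval (i : ℝ) = w i x := by
    intro i
    simp [P, w, eval_finsetSum]
  have hmaps : ∀ i ∈ (range n).filter (fun i => w i x = 0), ((i : ℕ) : ℝ) ∈ P.roots.toFinset := by
    intro i hi
    rw [Finset.mem_filter] at hi
    rw [Multiset.mem_toFinset, mem_roots hne, IsRoot, heval]
    exact hi.2
  calc ((range n).filter fun i => w i x = 0).card ≤ P.roots.toFinset.card :=
        Finset.card_le_card_of_injOn (fun i : ℕ => (i : ℝ)) hmaps
          (fun a _ b _ h => Nat.cast_injective h)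
    _ ≤ Multiset.card P.roots := Multiset.toFinset_card_le _
    _ ≤ P.natDegree := card_roots' _
    _ ≤ m := hdeg

theorem t_kn : T_KN := by
  classical
  intro k t n hk hn c hc
  rcases Nat.eq_zero_or_pos t with rfl | ht
  · obtain ⟨S, hS, hcard⟩ := Finset.exists_subset_card_eq (s := Finset.range n) (n := k)
      (by rw [Finset.card_range]; omega)
    exact absurd (hc S hS hcard) (by omega)
  by_contra hcon
  push Not at hcon
  let F : ℕ → Finset (Finset ℕ) := fun a => ((range n).powersetCard k).filter fun S => c S = a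
  have hF : ∀ a S, S ∈ F a ↔ (S ⊆ range n ∧ S.card = k) ∧ c S = a := by
    intro a S
    simp only [F, Finset.mem_filter, Finset.mem_powersetCard]
  let f : Sph t → (Fin t → ℝ) := fun x a => gg (F a) (x : E (t + 1)) - gg (F a) (-(x : E (t + 1)))
  have hf : Continuous f := by
    refine continuous_pi fun a => ?_
    exact ((gg_cont (F a)).comp continuous_subtype_val).sub
      ((gg_cont (F a)).comp continuous_subtype_val.neg)
  have hodd : ∀ x, f (-x) = - f x := by
    intro x
    funext a
    simp only [f, Pi.neg_apply]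
    have : ((-x : Sph t) : E (t + 1)) = -(x : E (t + 1)) := rfl
    rw [this, neg_neg]
    ring
  obtain ⟨x, hx⟩ := borsuk_ulam le_rfl f hf hodd
  set y : E (t + 1) := (x : E (t + 1)) with hy
  have hy0 : y ≠ 0 := by
    intro h0
    have h1 := x.2
    rw [mem_sphere_zero_iff_norm, ← hy, h0, norm_zero] at h1
    exact zero_ne_one h1
  have heq : ∀ a < t, gg (F a) y = gg (F a) (-y) := by
    intro a ha
    have := congrFun hx ⟨a, ha⟩
    simp only [f, Pi.zero_apply] at this
    linarith
  have hzero : ∀ a < t, gg (F a) y = 0 := by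
    intro a ha
    by_contra hne
    obtain ⟨S, hS, hSpos⟩ := exists_of_gg_ne hne
    obtain ⟨T, hT, hTpos⟩ := exists_of_gg_ne (fun h => hne ((heq a ha).trans h))
    rw [hF] at hS hT
    refine hcon S T hS.1.1 hT.1.1 hS.1.2 hT.1.2 ?_ (hS.2.trans hT.2.symm)
    rw [Finset.disjoint_left]
    intro i hi hi'
    have h1 := hSpos i hi
    have h2 := hTpos i hi'
    rw [w_neg] at h2
    linarith
  have hpos : ((range n).filter fun i => 0 < w i y).card < k := by
    by_contra hle
    obtain ⟨S, hS, hcard⟩ := Finset.exists_subset_card_eq (not_lt.mp hle)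
    have hSn : S ⊆ range n := hS.trans (Finset.filter_subset _ _)
    have h1 := gg_pos (F := F (c S)) ((hF _ _).2 ⟨⟨hSn, hcard⟩, rfl⟩)
      (x := y) (fun i hi => (Finset.mem_filter.mp (hS hi)).2)
    rw [hzero _ (hc S hSn hcard)] at h1
    exact lt_irrefl _ h1
  have hneg : ((range n).filter fun i => w i y < 0).card < k := by
    by_contra hle
    obtain ⟨S, hS, hcard⟩ := Finset.exists_subset_card_eq (not_lt.mp hle)
    have hSn : S ⊆ range n := hS.trans (Finset.filter_subset _ _)
    have h1 := gg_pos (F := F (c S)) ((hF _ _).2 ⟨⟨hSn, hcard⟩, rfl⟩)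
      (x := -y) (fun i hi => by
        rw [w_neg]
        linarith [(Finset.mem_filter.mp (hS hi)).2])
    rw [← heq _ (hc S hSn hcard), hzero _ (hc S hSn hcard)] at h1
    exact lt_irrefl _ h1
  have hz := zeros_card y hy0 n
  have hcover : range n ⊆ ((range n).filter fun i => 0 < w i y) ∪
      (((range n).filter fun i => w i y < 0) ∪ ((range n).filter fun i => w i y = 0)) := by
    intro i hi
    simp only [Finset.mem_union, Finset.mem_filter]
    rcases lt_trichotomy (w i y) 0 with h | h | h
    · exact Or.inr (Or.inl ⟨hi, h⟩)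
    · exact Or.inr (Or.inr ⟨hi, h⟩)
    · exact Or.inl ⟨hi, h⟩
  have h1 := Finset.card_le_card hcover
  have h2 := Finset.card_union_le ((range n).filter fun i => 0 < w i y)
    (((range n).filter fun i => w i y < 0) ∪ ((range n).filter fun i => w i y = 0))
  have h3 := Finset.card_union_le ((range n).filter fun i => w i y < 0)
    ((range n).filter fun i => w i y = 0)
  rw [Finset.card_range] at h1
  omega

end Pool.Agent.Y935.KLKN
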